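import Mathlib

/-!
# The critical values of a composition of polynomials
-/

set_option autoImplicit false

open Polynomial

namespace Pool.Agent.U818.CV

/-- all critical values -/
def vall (F : ℂ[X]) : Set ℂ := {v | ∃ c, (derivative F).eval c = 0 ∧ F.eval c = v}

theorem vall_finite {F : ℂ[X]} (h : 1 ≤ F.natDegree) :
    (vall F).Finite ∧ (vall F).ncard ≤ F.natDegree - 1 := by
  classical
  have hd : derivative F ≠ 0 := by
    intro h0
    have := derivative_eq_zero.1 h0
    omega
  have hsub : vall F ⊆ (((derivative F).roots.toFinset.image fun c => F.eval c : Finset ℂ) :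
      Set ℂ) := by
    rintro v ⟨c, hc, rfl⟩
    rw [Finset.mem_coe, Finset.mem_image]
    refine ⟨c, ?_, rfl⟩
    rw [Multiset.mem_toFinset, mem_roots hd]
    exact hc
  refine ⟨(Finset.finite_toSet _).subset hsub, ?_⟩
  refine (Set.ncard_le_ncard hsub (Finset.finite_toSet _)).trans ?_
  rw [Set.ncard_coe_finset]
  refine Finset.card_image_le.trans ((Multiset.toFinset_card_le _).trans
    ((card_roots' _).trans (natDegree_derivative_le F)))

theorem vall_comp {f g : ℂ[X]} (hf : 1 ≤ f.natDegree) (hg : (vall g).Finite) :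
    (vall (f.comp g)).Finite ∧ (vall (f.comp g)).ncard ≤ (f.natDegree - 1) + (vall g).ncard := by
  obtain ⟨hff, hfc⟩ := vall_finite hf
  have hsub : vall (f.comp g) ⊆ vall f ∪ (fun v => f.eval v) '' vall g := by
    rintro v ⟨c, hc, rfl⟩
    rw [derivative_comp, eval_mul, eval_comp] at hc
    rw [eval_comp]
    rcases mul_eq_zero.1 hc with h | h
    · exact Or.inr ⟨g.eval c, ⟨c, h, rfl⟩, rfl⟩
    · exact Or.inl ⟨g.eval c, h, rfl⟩
  have hfin : (vall f ∪ (fun v => f.eval v) '' vall g).Finite := hff.union (hg.image _)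
  refine ⟨hfin.subset hsub, (Set.ncard_le_ncard hsub hfin).trans ?_⟩
  exact (Set.ncard_union_le _ _).trans (Nat.add_le_add hfc (Set.ncard_image_le hg))

/-- the composition `f 1 ∘ f 2 ∘ ... ∘ f m` -/
noncomputable def comps (fs : List ℂ[X]) : ℂ[X] := fs.foldr (fun f g => f.comp g) X

theorem vall_comps : ∀ fs : List ℂ[X], (∀ f ∈ fs, 1 ≤ f.natDegree) →
    (vall (comps fs)).Finite ∧
      (vall (comps fs)).ncard ≤ (fs.map fun f => f.natDegree - 1).sum
  | [], _ => by
      have h0 : vall (comps []) = ∅ := by
        rw [Set.eq_empty_iff_forall_notMem]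
        rintro v ⟨c, hc, -⟩
        simp [comps] at hc
      rw [h0]
      simp
  | f :: fs, h => by
      obtain ⟨h1, h2⟩ := vall_comps fs fun g hg => h g (List.mem_cons_of_mem _ hg)
      obtain ⟨h3, h4⟩ := vall_comp (h f List.mem_cons_self) h1
      refine ⟨h3, h4.trans ?_⟩
      rw [List.map_cons, List.sum_cons]
      omega

theorem two_pow_le : ∀ fs : List ℂ[X], (∀ f ∈ fs, 2 ≤ f.natDegree) →
    2 ^ fs.length ≤ (comps fs).natDegree
  | [], _ => by simp [comps]
  | f :: fs, h => by
      have h1 := two_pow_le fs fun g hg => h g (List.mem_cons_of_mem _ hg)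
      have h2 := h f List.mem_cons_self
      have h3 : comps (f :: fs) = f.comp (comps fs) := rfl
      rw [h3, natDegree_comp, List.length_cons, pow_succ, mul_comm]
      exact Nat.mul_le_mul h2 h1

/-- the number of critical values of a composition of polynomials of degree at most `d` -/
theorem sum_le {d : ℕ} (hd : 2 ≤ d) {N : ℕ} (hN : 2 ≤ N) (fs : List ℂ[X])
    (h : ∀ f ∈ fs, 2 ≤ f.natDegree ∧ f.natDegree ≤ d) (hdeg : (comps fs).natDegree = N) :
    1 ≤ (fs.map fun f => f.natDegree - 1).sum ∧
      1000 * Real.sqrt ((fs.map fun f => f.natDegree - 1).sum : ℕ) ≤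
        1500 * Real.sqrt (d * Real.log N) := by
  have h1 := two_pow_le fs fun f hf => (h f hf).1
  rw [hdeg] at h1
  have hlen : fs.length * Real.log 2 ≤ Real.log N := by
    rw [← Real.log_pow]
    exact Real.log_le_log (by positivity) (by exact_mod_cast h1)
  have hne : fs ≠ [] := by
    rintro rfl
    simp [comps] at hdeg
    omega
  have h2 : (fs.map fun f => f.natDegree - 1).sum ≤ fs.length * (d - 1) := by
    have h3 := List.sum_le_card_nsmul (fs.map fun f => f.natDegree - 1) (d - 1) (by
      intro x hx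
      obtain ⟨f, hf, rfl⟩ := List.mem_map.1 hx
      have := (h f hf).2
      omega)
    rwa [List.length_map, smul_eq_mul] at h3
  constructor
  · obtain ⟨f, gs, rfl⟩ := List.exists_cons_of_ne_nil hne
    rw [List.map_cons, List.sum_cons]
    have := (h f List.mem_cons_self).1
    omega
  · have hlog2 := Real.log_two_gt_d9
    have hlogN : 0 ≤ Real.log N := Real.log_natCast_nonneg _
    have hdR : (2 : ℝ) ≤ d := by exact_mod_cast hd
    have hl0 : (0 : ℝ) ≤ fs.length := Nat.cast_nonneg _
    have h4 : (((fs.map fun f => f.natDegree - 1).sum : ℕ) : ℝ) ≤ 2.25 * (d * Real.log N) := by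
      have h5 : (((fs.map fun f => f.natDegree - 1).sum : ℕ) : ℝ) ≤ fs.length * d := by
        have h6 : (fs.map fun f => f.natDegree - 1).sum ≤ fs.length * d :=
          h2.trans (Nat.mul_le_mul_left _ (by omega))
        exact_mod_cast h6
      have h7 : (fs.length : ℝ) ≤ 2.25 * Real.log N := by nlinarith
      calc (((fs.map fun f => f.natDegree - 1).sum : ℕ) : ℝ) ≤ fs.length * d := h5
        _ ≤ (2.25 * Real.log N) * d := mul_le_mul_of_nonneg_right h7 (by linarith)
        _ = _ := by ring
    have h8 : Real.sqrt (2.25 * (d * Real.log N)) = 1.5 * Real.sqrt (d * Real.log N) := by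
      rw [Real.sqrt_mul (by norm_num)]
      congr 1
      rw [Real.sqrt_eq_iff_mul_self_eq (by norm_num) (by norm_num)]
      norm_num
    have h9 := Real.sqrt_le_sqrt h4
    rw [h8] at h9
    linarith

end Pool.Agent.U818.CV
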