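import Mathlib
import Pool.Agent.W751.CD.Fib
import Pool.Agent.W349.CD.NU
import Pool.Agent.W349.CD.C2
import Pool.Agent.W597.CD.Pow
import Pool.Agent.W52.CD.Conj
import Pool.Agent.W125.CD.Kap
import Pool.Agent.W973.CD.EX

/-!
# Polynomials with few critical values: the family `a * T` and the scaled roots

Adapted from `Pool.Agent.W751.CD.Fib`, `Pool.Agent.W125.CD.Kap` and `Pool.Agent.W973.CD.EX`, where
the number of the critical values is estimated by the degree.
-/

set_option autoImplicit false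

open Polynomial Filter Topology MeasureTheory

namespace Pool.Agent.U818.CV

open Pool.Agent.W751.CD

/-- the critical values other than zero -/
noncomputable def J (F : ℂ[X]) : Finset ℂ := by
  classical
  exact ((derivative F).roots.toFinset.image (fun c => F.eval c)).filter (fun b => b ≠ 0)

theorem mem_J {F : ℂ[X]} (hd : derivative F ≠ 0) (b : ℂ) :
    b ∈ J F ↔ b ≠ 0 ∧ ∃ c, (derivative F).eval c = 0 ∧ F.eval c = b := by
  classical
  unfold J
  rw [Finset.mem_filter, Finset.mem_image]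
  constructor
  · rintro ⟨⟨c, hc, rfl⟩, h⟩
    rw [Multiset.mem_toFinset, mem_roots hd] at hc
    exact ⟨h, c, hc, rfl⟩
  · rintro ⟨h, c, hc, rfl⟩
    refine ⟨⟨c, ?_, rfl⟩, h⟩
    rw [Multiset.mem_toFinset, mem_roots hd]
    exact hc

lemma numeric {N k : ℕ} (hN : 2 ≤ N) (hk : 1 ≤ k) {δ : ℝ} (hδ : 0 < δ) (hδ1 : δ ≤ 1) :
    2 * Real.pi * Real.log (4 * (258 * N / δ) / (δ / (2 * N) / 4)) +
      4 * Real.sqrt 3 * Real.pi * Real.log ((258 * N / δ) / (δ / (2 * N) / 4)) * Real.sqrt k ≤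
    400 * Real.sqrt k * Real.log (N / δ) := by
  have hN2 : (2 : ℝ) ≤ N := by exact_mod_cast hN
  have hN0 : (0 : ℝ) < N := by linarith
  set l := Real.log (N / δ) with hl
  have hl2 : Real.log 2 ≤ l := by
    apply Real.log_le_log (by norm_num)
    rw [le_div_iff₀ hδ]
    nlinarith
  have hlog2 : 0.6931 < Real.log 2 := by have := Real.log_two_gt_d9; linarith
  have h2064 : Real.log 2064 ≤ 45 / 4 * Real.log 2 := by
    have h1 : 4 * Real.log 2064 ≤ 45 * Real.log 2 := by
      have h2 : Real.log (2064 ^ 4) ≤ Real.log (2 ^ 45) :=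
        Real.log_le_log (by positivity) (by norm_num)
      rw [Real.log_pow, Real.log_pow] at h2
      exact_mod_cast h2
    linarith
  have e1 : (258 * N / δ) / (δ / (2 * N) / 4) = 2064 * (N / δ) ^ 2 := by
    field_simp; norm_num
  have e2 : 4 * (258 * N / δ) / (δ / (2 * N) / 4) = 2 ^ 2 * (2064 * (N / δ) ^ 2) := by
    field_simp; norm_num
  have hpos : 0 < (N / δ : ℝ) := by positivity
  have f1 : Real.log (2064 * (N / δ) ^ 2) = Real.log 2064 + 2 * l := by
    rw [Real.log_mul (by norm_num) (by positivity), Real.log_pow]; push_cast; rfl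
  have f2 : Real.log (2 ^ 2 * (2064 * (N / δ) ^ 2)) = 2 * Real.log 2 + (Real.log 2064 + 2 * l) := by
    rw [Real.log_mul (by norm_num) (by positivity), Real.log_pow, f1]; push_cast; rfl
  rw [e1, e2, f1, f2]
  have g1 : Real.log 2064 + 2 * l ≤ 53 / 4 * l := by linarith
  have g2 : 2 * Real.log 2 + (Real.log 2064 + 2 * l) ≤ 61 / 4 * l := by linarith
  have hpi := Real.pi_lt_d4
  have hpi0 := Real.pi_pos
  have h3 : Real.sqrt 3 ≤ 1.7321 := by
    rw [Real.sqrt_le_left (by norm_num)]; norm_num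
  have hs : 1 ≤ Real.sqrt k := Real.one_le_sqrt.2 (by exact_mod_cast hk)
  have hl0 : 0 < l := by linarith
  have k1 : 2 * Real.pi * (2 * Real.log 2 + (Real.log 2064 + 2 * l)) ≤ 96 * Real.sqrt k * l := by
    calc 2 * Real.pi * (2 * Real.log 2 + (Real.log 2064 + 2 * l))
        ≤ 2 * Real.pi * (61 / 4 * l) := by gcongr
      _ = (61 / 2 * Real.pi) * l := by ring
      _ ≤ (96 * Real.sqrt k) * l := by
          apply mul_le_mul_of_nonneg_right _ hl0.le
          nlinarith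
  have k2 : 4 * Real.sqrt 3 * Real.pi * (Real.log 2064 + 2 * l) * Real.sqrt k ≤
      289 * Real.sqrt k * l := by
    have q1 : Real.sqrt 3 * Real.pi ≤ 5.4419 := by
      calc Real.sqrt 3 * Real.pi ≤ 1.7321 * 3.1416 := by gcongr
        _ ≤ _ := by norm_num
    calc 4 * Real.sqrt 3 * Real.pi * (Real.log 2064 + 2 * l) * Real.sqrt k
        ≤ 4 * Real.sqrt 3 * Real.pi * (53 / 4 * l) * Real.sqrt k := by gcongr
      _ = 53 * (Real.sqrt 3 * Real.pi) * l * Real.sqrt k := by ring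
      _ ≤ 53 * 5.4419 * l * Real.sqrt k := by gcongr
      _ ≤ _ := by
          have : 0 ≤ l * Real.sqrt k := by positivity
          nlinarith
  nlinarith [mul_pos hl0 (by linarith : 0 < Real.sqrt k)]

/-- the family `a * T` -/
theorem fib (hNU : S_NU) (hC2 : S_C2) {N : ℕ} (hN : 2 ≤ N) (z : Fin N → ℂ) {δ : ℝ} (hδ : 0 < δ)
    (hz : ∀ i, δ ≤ ‖z i‖ ∧ ‖z i‖ ≤ 1) {k : ℕ} (hk : 1 ≤ k) (hJk : (J (P z)).card ≤ k) :
    nu {a : ℂ | ¬ Hyp (C a * P z)} ≤ ENNReal.ofReal (400 * Real.sqrt k * Real.log (N / δ)) := by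
  have hN2 : (2 : ℝ) ≤ N := by exact_mod_cast hN
  have hN0 : (0 : ℝ) < N := by linarith
  have hδ1 : δ ≤ 1 := (hz ⟨0, by omega⟩).1.trans (hz ⟨0, by omega⟩).2
  set s₁ : ℝ := δ / (2 * N) / 4 with hs₁
  set R₁ : ℝ := 258 * N / δ with hR₁
  have hs0 : 0 < s₁ := by positivity
  have hR0 : 0 < R₁ := by positivity
  have hsR : s₁ < R₁ := by
    have h1 : s₁ ≤ 1 / 16 := by
      rw [hs₁, div_div, div_le_div_iff₀ (by positivity) (by norm_num)]
      nlinarith
    have h2 : (1 : ℝ) ≤ R₁ := by rw [hR₁, le_div_iff₀ hδ]; nlinarith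
    linarith
  set t : ℝ := ‖(P z).eval 0‖ with ht
  have ht0 : 0 < t := by
    rw [ht, eval_P, norm_prod]
    apply Finset.prod_pos
    intro i _
    have := (hz i).1
    rw [zero_sub, norm_neg]
    linarith
  have hd : derivative (P z) ≠ 0 := by
    intro h
    have := natDegree_eq_zero_of_derivative_eq_zero h
    rw [P_natDegree] at this
    omega
  have hJ0 : ∀ b ∈ J (P z), b ≠ 0 := fun b hb => ((mem_J hd b).1 hb).1
  set f : ℂ → ℝ := fun u => ‖(P z).eval u‖ with hf
  have hfc : Continuous f := (P z).continuous.norm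
  have hC := hC2 hNU f hfc (fun u => norm_nonneg _) s₁ R₁ hs0 hsR (J (P z)) hJ0 k hk hJk
  set A1 : Set ℂ := {a : ℂ | s₁ / 2 / t ≤ ‖a‖ ∧ ‖a‖ ≤ 2 * R₁ / t} with hA1
  set A2 : Set ℂ := ⋃ b ∈ J (P z), {a : ℂ | s₁ ≤ ‖a * b‖ ∧ ‖a * b‖ ≤ R₁ ∧
        s₁ ≤ ‖a‖ * f (a * b) ∧ ‖a‖ * f (a * b) ≤ R₁} with hA2
  have hsub : {a : ℂ | ¬ Hyp (C a * P z)} ⊆ {0} ∪ A1 ∪ A2 := by
    intro a ha
    by_contra hcon
    apply ha
    rw [Set.mem_union, Set.mem_union, not_or, not_or] at hcon
    obtain ⟨⟨h0, h1⟩, h2⟩ := hcon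
    apply hyp_of hN hδ hz h0
    · rintro ⟨e1, e2⟩
      apply h1
      rw [hA1]
      refine ⟨?_, ?_⟩
      · rw [div_le_iff₀ ht0]; exact e1
      · rw [le_div_iff₀ ht0]; exact e2
    · rintro c hc hne e1 e2 ⟨e3, e4⟩
      apply h2
      rw [hA2, Set.mem_iUnion₂]
      exact ⟨(P z).eval c, (mem_J hd _).2 ⟨hne, c, hc, rfl⟩, e1, e2, e3, e4⟩
  have hm1 : nu A1 = ENNReal.ofReal (2 * Real.pi * Real.log (4 * R₁ / s₁)) := by
    have h1 := hNU.1 (s₁ / 2 / t) (2 * R₁ / t) (by positivity) (by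
      gcongr ?_ / t
      linarith)
    rw [hA1, h1]
    congr 3
    field_simp
    norm_num
  calc nu {a : ℂ | ¬ Hyp (C a * P z)} ≤ nu ({0} ∪ A1 ∪ A2) := measure_mono hsub
    _ ≤ nu ({0} ∪ A1) + nu A2 := measure_union_le _ _
    _ ≤ nu {0} + nu A1 + nu A2 := by gcongr; exact measure_union_le _ _
    _ ≤ 0 + ENNReal.ofReal (2 * Real.pi * Real.log (4 * R₁ / s₁)) +
        ENNReal.ofReal (4 * Real.sqrt 3 * Real.pi * Real.log (R₁ / s₁) * Real.sqrt k) := by
        rw [hNU.2.2, hm1]; gcongr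
    _ ≤ ENNReal.ofReal (400 * Real.sqrt k * Real.log (N / δ)) := by
        rw [zero_add, ← ENNReal.ofReal_add]
        · exact ENNReal.ofReal_le_ofReal (numeric hN hk hδ hδ1)
        · have : 0 ≤ Real.log (4 * R₁ / s₁) := by
            apply Real.log_nonneg
            rw [le_div_iff₀ hs0]
            linarith
          have := Real.pi_pos
          positivity
        · have : 0 ≤ Real.log (R₁ / s₁) := by
            apply Real.log_nonneg
            rw [le_div_iff₀ hs0]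
            linarith
          have := Real.pi_pos
          positivity

/-- the number of critical values does not change under an affine change of the zeros -/
theorem J_affine {N : ℕ} (hN : 2 ≤ N) (z : Fin N → ℂ) {l : ℂ} (hl : l ≠ 0) (τ : ℂ) :
    (J (P fun i => l * z i + τ)).card ≤ (J (P z)).card := by
  classical
  have hd : ∀ z : Fin N → ℂ, derivative (P z) ≠ 0 := by
    intro z h
    have := natDegree_eq_zero_of_derivative_eq_zero h
    rw [P_natDegree] at this
    omega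
  have hcomp : (P fun i => l * z i + τ).comp (C l * X + C τ) = C (l ^ N) * P z := by
    unfold P
    rw [prod_comp]
    have h1 : ∀ i, ((X : ℂ[X]) - C (l * z i + τ)).comp (C l * X + C τ) = C l * (X - C (z i)) := by
      intro i
      rw [sub_comp, X_comp, C_comp, C_add, C_mul]
      ring
    rw [Finset.prod_congr rfl fun i _ => h1 i, Finset.prod_mul_distrib, Finset.prod_const,
      Finset.card_univ, Fintype.card_fin, C_pow]
  have hder : ∀ w, l * (derivative (P fun i => l * z i + τ)).eval (l * w + τ) =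
      l ^ N * (derivative (P z)).eval w := by
    intro w
    have h1 := congrArg (fun Q => (derivative Q).eval w) hcomp
    simp only [derivative_comp, derivative_C_mul, derivative_add, derivative_X, derivative_C,
      eval_mul, eval_C, eval_comp, eval_add, eval_X, mul_one, add_zero] at h1
    exact h1
  have hval : ∀ w, (P fun i => l * z i + τ).eval (l * w + τ) = l ^ N * (P z).eval w := by
    intro w
    have h1 := congrArg (fun Q => Q.eval w) hcomp
    simp only [eval_mul, eval_C, eval_comp, eval_add, eval_X] at h1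
    exact h1
  have hsub : J (P fun i => l * z i + τ) ⊆ (J (P z)).image fun v => l ^ N * v := by
    intro b hb
    rw [mem_J (hd _)] at hb
    obtain ⟨hb0, c, hc, rfl⟩ := hb
    have hcw : c = l * ((c - τ) / l) + τ := by field_simp; ring
    rw [Finset.mem_image]
    refine ⟨(P z).eval ((c - τ) / l), ?_, ?_⟩
    · rw [mem_J (hd _)]
      refine ⟨?_, (c - τ) / l, ?_, rfl⟩
      · intro h0
        apply hb0
        rw [hcw, hval, h0, mul_zero]
      · have h1 := hder ((c - τ) / l)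
        rw [← hcw, hc, mul_zero] at h1
        exact (mul_eq_zero.1 h1.symm).resolve_left (pow_ne_zero _ hl)
    · rw [← hval, ← hcw]
  exact (Finset.card_le_card hsub).trans Finset.card_image_le

theorem kap {N : ℕ} (hN : 2 ≤ N) (z : Fin N → ℂ) {L : ℝ} (hz : ∀ i, z i ≠ 0)
    (hL : ∀ i j, ‖z i‖ ≤ L * ‖z j‖) {k : ℕ} (hk : 1 ≤ k) (hJk : (J (P z)).card ≤ k) :
    nu {κ : ℂ | ¬ Hyp (P fun i => κ * z i)} ≤
        ENNReal.ofReal (800 * Real.sqrt k * Real.log (N * L) / N) ∧
    nu {a : ℂ | ¬ Hyp (C a * P z)} ≤ ENNReal.ofReal (400 * Real.sqrt k * Real.log (N * L)) := by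
  have hNU := W349.CD.NU_holds
  have hCONJ := Pool.Agent.W52.CD.Conj.conj_holds
  have hne : (Finset.univ : Finset (Fin N)).Nonempty := ⟨⟨0, by omega⟩, Finset.mem_univ _⟩
  obtain ⟨i₀, -, hi₀⟩ := Finset.exists_max_image Finset.univ (fun i => ‖z i‖) hne
  set M : ℝ := ‖z i₀‖ with hM
  have hMpos : 0 < M := norm_pos_iff.mpr (hz i₀)
  have hMC : (M : ℂ) ≠ 0 := by exact_mod_cast hMpos.ne'
  have hL1 : 1 ≤ L := by
    have := hL i₀ i₀
    rw [← hM] at this
    by_contra hcon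
    push Not at hcon
    nlinarith
  have hLpos : 0 < L := by linarith
  set z' : Fin N → ℂ := fun i => z i / M with hz'
  have hzz : (fun i => (M : ℂ) * z' i) = z := by
    funext i
    simp only [hz']
    field_simp
  have hb : ∀ i, 1 / L ≤ ‖z' i‖ ∧ ‖z' i‖ ≤ 1 := by
    intro i
    have hn : ‖z' i‖ = ‖z i‖ / M := by
      simp only [hz', norm_div, Complex.norm_real, Real.norm_of_nonneg hMpos.le]
    rw [hn]
    constructor
    · rw [div_le_div_iff₀ hLpos hMpos, one_mul, mul_comm]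
      exact hL i₀ i
    · rw [div_le_one hMpos]
      exact hi₀ i (Finset.mem_univ i)
  have hJ' : (J (P z')).card ≤ k := by
    have h1 := J_affine hN z (inv_ne_zero hMC) 0
    have h2 : (fun i => (M : ℂ)⁻¹ * z i + 0) = z' := by
      funext i
      simp only [hz']
      ring
    rw [h2] at h1
    exact h1.trans hJk
  have hF := fib hNU W349.CD.C2_holds hN z' (δ := 1 / L) (by positivity) hb hk hJ'
  rw [show (N : ℝ) / (1 / L) = N * L by field_simp] at hF
  have hA : nu {a : ℂ | ¬ Hyp (C a * P z)} ≤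
      ENNReal.ofReal (400 * Real.sqrt k * Real.log (N * L)) := by
    have hset : {a : ℂ | ¬ Hyp (C a * P z)} =
        (fun a : ℂ => a * (M : ℂ) ^ (N - 1)) ⁻¹' {a : ℂ | ¬ Hyp (C a * P z')} := by
      ext a
      have := hCONJ N (by omega) z' a M hMC
      rw [hzz] at this
      exact not_congr this
    rw [hset]
    exact (W125.CD.inv_le hNU _ (pow_ne_zero _ hMC) _).trans hF
  refine ⟨?_, hA⟩
  have hsub : {κ : ℂ | ¬ Hyp (P fun i => κ * z i)} ⊆
      {0} ∪ (fun κ : ℂ => κ ^ (N - 1)) ⁻¹' {a : ℂ | ¬ Hyp (C a * P z)} := by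
    intro κ hκ
    by_cases h0 : κ = 0
    · left
      exact h0
    · right
      have := hCONJ N (by omega) z 1 κ h0
      rw [map_one, one_mul, one_mul] at this
      exact fun h => hκ (this.mpr h)
  have hN1 : (1 : ℝ) ≤ ((N - 1 : ℕ) : ℝ) := by
    exact_mod_cast (by omega : 1 ≤ N - 1)
  have hNR : (2 : ℝ) ≤ N := by exact_mod_cast hN
  have hlog : 0 ≤ Real.log (N * L) := by
    apply Real.log_nonneg
    nlinarith
  have hcast : ((N - 1 : ℕ) : ℝ) = N - 1 := by
    rw [Nat.cast_sub (by omega), Nat.cast_one]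
  calc nu {κ : ℂ | ¬ Hyp (P fun i => κ * z i)}
      ≤ nu ({0} ∪ (fun κ : ℂ => κ ^ (N - 1)) ⁻¹' {a : ℂ | ¬ Hyp (C a * P z)}) :=
        measure_mono hsub
    _ ≤ nu {0} + nu ((fun κ : ℂ => κ ^ (N - 1)) ⁻¹' {a : ℂ | ¬ Hyp (C a * P z)}) :=
        measure_union_le _ _
    _ = nu ((fun κ : ℂ => κ ^ (N - 1)) ⁻¹' {a : ℂ | ¬ Hyp (C a * P z)}) := by
        rw [hNU.2.2, zero_add]
    _ ≤ ENNReal.ofReal (400 * Real.sqrt k * Real.log (N * L) / ((N - 1 : ℕ) : ℝ)) :=
        W125.CD.pow_le' Pool.Agent.W597.CD.pow_holds (N - 1) (by omega) _ _ hA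
    _ ≤ ENNReal.ofReal (800 * Real.sqrt k * Real.log (N * L) / N) := by
        apply ENNReal.ofReal_le_ofReal
        rw [hcast, div_le_div_iff₀ (by linarith) (by linarith)]
        have h5 : 0 ≤ Real.sqrt k * Real.log (N * L) := by positivity
        nlinarith

/-- the choice of the parameters -/
theorem ex {N : ℕ} (hN : 2 ≤ N) (z : Fin N → ℂ) {M ε : ℝ} (hM : 1 ≤ M) (hz : ∀ i, ‖z i‖ ≤ M)
    (hε1 : ε ≤ 1) {k : ℕ} (hk : 1 ≤ k) (hJk : (J (P z)).card ≤ k)
    (hε : 1000 * Real.sqrt k * Real.log (N * M) / N ≤ ε) :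
    ∃ κ τ : ℂ, ‖κ - 1‖ ≤ ε ∧ ‖τ‖ ≤ ε ∧ Hyp (P fun i => κ * z i + τ) := by
  have hNU := W349.CD.NU_holds
  have hCONJ := Pool.Agent.W52.CD.Conj.conj_holds
  obtain ⟨hann, -, -⟩ := hNU
  have hN2 : (2 : ℝ) ≤ N := by exact_mod_cast hN
  have hN0 : (0 : ℝ) < N := by linarith
  set sk : ℝ := Real.sqrt k with hsk
  have hsk1 : 1 ≤ sk := Real.one_le_sqrt.2 (by exact_mod_cast hk)
  set sN : ℝ := Real.sqrt N with hsN
  have hsN0 : 0 < sN := Real.sqrt_pos.2 hN0
  have hsq : sN ^ 2 = N := Real.sq_sqrt hN0.le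
  set h : ℝ := Real.log (N * M) with hh
  have hNM : (2 : ℝ) ≤ N * M := by nlinarith
  have hlog : (0.69 : ℝ) < h := by
    have h1 : Real.log 2 ≤ h := Real.log_le_log (by norm_num) hNM
    have h2 := Real.log_two_gt_d9
    linarith
  have hh0 : 0 < h := by linarith
  have hskh : h ≤ sk * h := by nlinarith
  have hεN : 1000 * (sk * h) ≤ ε * N := by
    rw [div_le_iff₀ hN0] at hε
    linarith
  have hεN690 : 690 ≤ ε * N := by linarith
  have hε0 : 0 < ε := by
    by_contra hneg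
    push Not at hneg
    nlinarith
  have hN690 : (690 : ℝ) ≤ N := by nlinarith
  have hsN1 : 1 ≤ sN := by
    rw [hsN]
    exact Real.one_le_sqrt.2 (by linarith)
  set δ : ℝ := ε / (4 * sN) with hδ
  have hδ0 : 0 < δ := by positivity
  -- (1) the translation
  obtain ⟨β, hβ1, hβ2⟩ := W973.CD.avoid z (ε / 2) δ (by positivity) hδ0.le (by
    rw [hδ, div_pow, mul_pow, hsq]
    have : (N : ℝ) * (ε ^ 2 / (4 ^ 2 * N)) = ε ^ 2 / 16 := by
      field_simp
      norm_num
    rw [this]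
    nlinarith [sq_nonneg ε, mul_pos hε0 hε0])
  set z' : Fin N → ℂ := fun i => z i - β with hz'
  have hz'1 : ∀ i, δ ≤ ‖z' i‖ := hβ2
  have hz'2 : ∀ i, ‖z' i‖ ≤ 2 * M := by
    intro i
    have h1 := norm_sub_le (z i) β
    have h2 := hz i
    have h3 : ‖z' i‖ = ‖z i - β‖ := rfl
    linarith
  have hJ' : (J (P z')).card ≤ k := by
    have h1 := J_affine hN z one_ne_zero (-β)
    have h2 : (fun i => (1 : ℂ) * z i + -β) = z' := by
      funext i
      simp only [hz']
      ring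
    rw [h2] at h1
    exact h1.trans hJk
  -- (2) the bound for the bad parameters
  set L : ℝ := 2 * M / δ with hL
  have hL0 : 0 < L := by positivity
  have hzz : ∀ i j, ‖z' i‖ ≤ L * ‖z' j‖ := by
    intro i j
    calc ‖z' i‖ ≤ 2 * M := hz'2 i
      _ = L * δ := by rw [hL, div_mul_cancel₀ _ hδ0.ne']
      _ ≤ L * ‖z' j‖ := mul_le_mul_of_nonneg_left (hz'1 j) hL0.le
  have hz0 : ∀ i, z' i ≠ 0 := by
    intro i hi
    have := hz'1 i
    rw [hi, norm_zero] at this
    linarith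
  have hNL : (N : ℝ) * L ≤ (N * M) ^ 3 := by
    have e1 : (N : ℝ) * L = 8 * M * N ^ 2 * sN / (ε * N) := by
      rw [hL, hδ]
      field_simp
      ring
    have hsNN : sN ≤ N := by
      rw [← hsq]
      nlinarith
    rw [e1, div_le_iff₀ (by positivity)]
    have h1 : 8 * M * (N : ℝ) ^ 2 * sN ≤ M * N ^ 2 * N * (ε * N) := by
      have h2 : 8 * M * (N : ℝ) ^ 2 * sN ≤ 8 * M * (N : ℝ) ^ 2 * N :=
        mul_le_mul_of_nonneg_left hsNN (by positivity)
      have h3 : 8 * M * (N : ℝ) ^ 2 * N ≤ M * N ^ 2 * N * (ε * N) := by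
        have : (0 : ℝ) ≤ M * N ^ 2 * N := by positivity
        nlinarith
      exact h2.trans h3
    have h2 : M * (N : ℝ) ^ 2 * N ≤ (N * M) ^ 3 := by
      have h3 : M ≤ M ^ 3 := by
        calc M = M ^ 1 := (pow_one M).symm
          _ ≤ M ^ 3 := pow_le_pow_right₀ hM (by norm_num)
      calc M * (N : ℝ) ^ 2 * N = M * N ^ 3 := by ring
        _ ≤ M ^ 3 * N ^ 3 := mul_le_mul_of_nonneg_right h3 (by positivity)
        _ = _ := by ring
    calc 8 * M * (N : ℝ) ^ 2 * sN ≤ M * N ^ 2 * N * (ε * N) := h1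
      _ ≤ (N * M) ^ 3 * (ε * N) := mul_le_mul_of_nonneg_right h2 (by positivity)
  have hlogNL : Real.log (N * L) ≤ 3 * h := by
    calc Real.log (N * L) ≤ Real.log ((N * M) ^ 3) := Real.log_le_log (by positivity) hNL
      _ = 3 * h := by rw [Real.log_pow, hh]; norm_num
  have hbad : nu {a : ℂ | ¬ Hyp (C a * P z')} ≤ ENNReal.ofReal (1200 * (sk * h)) := by
    refine (kap hN z' hz0 hzz hk hJ').2.trans (ENNReal.ofReal_le_ofReal ?_)
    rw [← hsk]
    nlinarith
  -- (3) a good parameter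
  set X : ℝ := ((N : ℝ) - 1) * ε / 4 with hX
  have hX0 : 0 < X := by
    rw [hX]
    have : (0 : ℝ) < N - 1 := by linarith
    positivity
  have hcmp : 1200 * (sk * h) < 2 * Real.pi * X := by
    have hpi := Real.pi_gt_d2
    have h1 : 1000 * (sk * h) * ((N : ℝ) - 1) ≤ ε * N * (N - 1) :=
      mul_le_mul_of_nonneg_right hεN (by linarith)
    have h0 : 0 < sk * h := by positivity
    -- multiply by N
    have h2 : 1200 * (sk * h) * N < 2 * Real.pi * X * N := by
      have e2 : 2 * Real.pi * X * N = Real.pi / 2 * (ε * N * (N - 1)) := by rw [hX]; ring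
      rw [e2]
      have h3 : Real.pi / 2 * (1000 * (sk * h) * ((N : ℝ) - 1)) ≤
          Real.pi / 2 * (ε * N * (N - 1)) :=
        mul_le_mul_of_nonneg_left h1 (by positivity)
      have h4 : (3.14 : ℝ) / 2 * (1000 * (sk * h) * ((N : ℝ) - 1)) ≤
          Real.pi / 2 * (1000 * (sk * h) * ((N : ℝ) - 1)) := by
        apply mul_le_mul_of_nonneg_right (by linarith)
        have : (0 : ℝ) ≤ N - 1 := by linarith
        positivity
      have h5 : 1200 * (sk * h) * (N : ℝ) < (3.14 : ℝ) / 2 * (1000 * (sk * h) * ((N : ℝ) - 1)) := by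
        have : 0 < (sk * h) * (370 * (N : ℝ) - 1570) := mul_pos h0 (by linarith)
        nlinarith
      linarith
    exact lt_of_mul_lt_mul_right h2 hN0.le
  obtain ⟨a, ha1, ha2, ha3⟩ : ∃ a : ℂ, 1 ≤ ‖a‖ ∧ ‖a‖ ≤ Real.exp X ∧ Hyp (C a * P z') := by
    by_contra hcon
    push Not at hcon
    have hsub : {a : ℂ | 1 ≤ ‖a‖ ∧ ‖a‖ ≤ Real.exp X} ⊆ {a : ℂ | ¬ Hyp (C a * P z')} :=
      fun a ha => hcon a ha.1 ha.2
    have h1 := (measure_mono hsub).trans hbad
    rw [hann 1 (Real.exp X) one_pos (Real.one_le_exp hX0.le), div_one, Real.log_exp,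
      ENNReal.ofReal_le_ofReal_iff (by positivity)] at h1
    linarith
  -- (4) the root
  have ha0 : a ≠ 0 := by
    intro h0
    rw [h0, norm_zero] at ha1
    linarith
  have hN1 : (0 : ℝ) < (N : ℝ) - 1 := by linarith
  have hN1c : ((N - 1 : ℕ) : ℂ) = ((((N : ℝ) - 1 : ℝ)) : ℂ) := by
    rw [Nat.cast_sub (by omega : 1 ≤ N)]
    push_cast
    rfl
  set ζ : ℂ := Complex.log a / ((((N : ℝ) - 1 : ℝ)) : ℂ) with hζ
  set κ : ℂ := Complex.exp ζ with hκ
  have hκ0 : κ ≠ 0 := Complex.exp_ne_zero _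
  have hκp : κ ^ (N - 1) = a := by
    rw [hκ, ← Complex.exp_nat_mul, hζ, hN1c, mul_div_cancel₀ _ (by
      rw [Ne, Complex.ofReal_eq_zero]
      exact hN1.ne')]
    exact Complex.exp_log ha0
  have hlogn : ‖Complex.log a‖ ≤ X + Real.pi := by
    refine (Complex.norm_le_abs_re_add_abs_im _).trans ?_
    have h1 : |(Complex.log a).re| ≤ X := by
      rw [Complex.log_re, abs_of_nonneg (Real.log_nonneg ha1)]
      calc Real.log ‖a‖ ≤ Real.log (Real.exp X) := Real.log_le_log (by linarith) ha2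
        _ = X := Real.log_exp X
    have h2 : |(Complex.log a).im| ≤ Real.pi := by
      rw [Complex.log_im]
      exact Complex.abs_arg_le_pi a
    linarith
  have hζn : ‖ζ‖ ≤ ε / 2 := by
    rw [hζ, norm_div, Complex.norm_real, Real.norm_of_nonneg hN1.le, div_le_iff₀ hN1]
    have hpi := Real.pi_lt_d2
    have h1 : Real.pi ≤ ε / 4 * ((N : ℝ) - 1) := by nlinarith
    rw [hX] at hlogn
    linarith
  have hκn : ‖κ - 1‖ ≤ ε := by
    have h1 : ‖ζ‖ ≤ 1 := by linarith
    have h2 := Complex.norm_exp_sub_one_sub_id_le h1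
    have h3 : κ - 1 = (Complex.exp ζ - 1 - ζ) + ζ := by rw [hκ]; ring
    rw [h3]
    refine (norm_add_le _ _).trans ?_
    have h4 : ‖ζ‖ ^ 2 ≤ (ε / 2) ^ 2 := pow_le_pow_left₀ (norm_nonneg _) hζn 2
    nlinarith
  have hhyp : Hyp (P fun i => κ * z' i) := by
    have h1 := (hCONJ N (by omega) z' 1 κ hκ0).2 (by rw [one_mul, hκp]; exact ha3)
    rwa [C_1, one_mul] at h1
  refine ⟨κ, -κ * β, hκn, ?_, ?_⟩
  · rw [norm_mul, norm_neg]
    have h1 : ‖κ‖ ≤ 1 + ε := by
      have h2 := norm_add_le (κ - 1) 1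
      rw [sub_add_cancel, norm_one] at h2
      linarith
    calc ‖κ‖ * ‖β‖ ≤ (1 + ε) * (ε / 2) :=
          mul_le_mul h1 hβ1 (norm_nonneg _) (by linarith)
      _ ≤ ε := by nlinarith
  · have e1 : (fun i => κ * z i + -κ * β) = fun i => κ * z' i := by
      funext i
      rw [hz']
      ring
    rw [e1]
    exact hhyp

end Pool.Agent.U818.CV
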